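import Mathlib

/-! # Left-invariant metrics on `(S³)^k` and their geodesics -/

set_option autoImplicit false

open Real Set MeasureTheory Matrix
open scoped ContDiff Quaternion

namespace Pool.Agent.FC640.LS

variable {k : ℕ}

/-- The algebra `ℍ^k`, pointwise operations. -/
abbrev A (k : ℕ) : Type := Fin k → ℍ[ℝ]

/-- The points of `(S³)^k`: `k`-tuples of unit quaternions. -/
def IsPt (p : A k) : Prop := ∀ j, ‖p j‖ = 1

/-- The imaginary parts of `v`: a vector of `(ℝ³)^k`. -/
def vec (v : A k) : Fin k × Fin 3 → ℝ :=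
  fun i => ![(v i.1).imI, (v i.1).imJ, (v i.1).imK] i.2

/-- The bilinear form on `(Im ℍ)^k` with matrix `B` in the standard basis. -/
noncomputable def form (B : Matrix (Fin k × Fin 3) (Fin k × Fin 3) ℝ) (v w : A k) : ℝ :=
  vec v ⬝ᵥ (B *ᵥ vec w)

/-- The left-invariant metric on `(S³)^k` whose value at `1` has the matrix `B`. -/
noncomputable def metric (B : Matrix (Fin k × Fin 3) (Fin k × Fin 3) ℝ) (p v w : A k) : ℝ :=
  form B (star p * v) (star p * w)

/-- The energy of a curve on `[a, b]`. -/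
noncomputable def energy (B : Matrix (Fin k × Fin 3) (Fin k × Fin 3) ℝ) (γ : ℝ → A k)
    (a b : ℝ) : ℝ :=
  ∫ t in a..b, metric B (γ t) (deriv γ t) (deriv γ t)

/-- A geodesic: a smooth curve in `(S³)^k`, critical for the energy on each `[a, b]` among all
smooth variations with fixed endpoints. -/
structure IsGeodesic (B : Matrix (Fin k × Fin 3) (Fin k × Fin 3) ℝ) (γ : ℝ → A k) : Prop where
  smooth : ContDiff ℝ ∞ γ
  mem : ∀ t, IsPt (γ t)
  critical : ∀ a b : ℝ, a < b → ∀ Γ : ℝ × ℝ → A k, ContDiff ℝ ∞ Γ → (∀ x, IsPt (Γ x)) →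
    (∀ t, Γ (0, t) = γ t) → (∀ s, Γ (s, a) = γ a) → (∀ s, Γ (s, b) = γ b) →
    HasDerivAt (fun s => energy B (fun t => Γ (s, t)) a b) 0 0

/-- The volume of the metric: the standard basis of `(Im ℍ)^k` is orthonormal for the product of
the round unit spheres, whose volume is `(2 π²)^k`. -/
noncomputable def vol (B : Matrix (Fin k × Fin 3) (Fin k × Fin 3) ℝ) : ℝ :=
  (2 * π ^ 2) ^ k * √B.det

/-! ### algebra -/

lemma vec_add (v w : A k) : vec (v + w) = vec v + vec w := by
  ext ⟨i, j⟩; fin_cases j <;> simp [vec]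

lemma vec_sub (v w : A k) : vec (v - w) = vec v - vec w := by
  ext ⟨i, j⟩; fin_cases j <;> simp [vec]

lemma vec_smul (c : ℝ) (v : A k) : vec (c • v) = c • vec v := by
  ext ⟨i, j⟩; fin_cases j <;> simp [vec]

lemma vec_zero : vec (0 : A k) = 0 := by
  ext ⟨i, j⟩; fin_cases j <;> simp [vec]

/-- `vec` as a continuous linear map. -/
noncomputable def vecL : A k →L[ℝ] (Fin k × Fin 3 → ℝ) :=
  LinearMap.toContinuousLinearMap
    { toFun := vec, map_add' := vec_add, map_smul' := vec_smul }

lemma vecL_apply (v : A k) : vecL v = vec v := rfl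

lemma form_add_left (B : Matrix (Fin k × Fin 3) (Fin k × Fin 3) ℝ) (u v w : A k) :
    form B (u + v) w = form B u w + form B v w := by
  simp [form, vec_add, add_dotProduct]

lemma form_add_right (B : Matrix (Fin k × Fin 3) (Fin k × Fin 3) ℝ) (u v w : A k) :
    form B u (v + w) = form B u v + form B u w := by
  simp [form, vec_add, mulVec_add, dotProduct_add]

lemma form_smul_left (B : Matrix (Fin k × Fin 3) (Fin k × Fin 3) ℝ) (c : ℝ) (v w : A k) :
    form B (c • v) w = c * form B v w := by
  simp [form, vec_smul, smul_dotProduct]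

lemma form_smul_right (B : Matrix (Fin k × Fin 3) (Fin k × Fin 3) ℝ) (c : ℝ) (v w : A k) :
    form B v (c • w) = c * form B v w := by
  simp [form, vec_smul, mulVec_smul, dotProduct_smul]

lemma form_comm {B : Matrix (Fin k × Fin 3) (Fin k × Fin 3) ℝ} (hB : B.IsHermitian) (v w : A k) :
    form B v w = form B w v := by
  have hT : Bᵀ = B := by
    have := hB.eq
    rwa [conjTranspose_eq_transpose_of_trivial] at this
  unfold form
  rw [dotProduct_mulVec, ← mulVec_transpose, hT, dotProduct_comm]

lemma hasDerivAt_vec {f : ℝ → A k} {f' : A k} {t : ℝ} (hf : HasDerivAt f f' t)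
    (i : Fin k × Fin 3) : HasDerivAt (fun s => vec (f s) i) (vec f' i) t := by
  have h : HasDerivAt (fun s => vecL (f s)) (vecL f') t := (vecL.hasFDerivAt).comp_hasDerivAt t hf
  exact (hasDerivAt_pi.1 h) i

lemma form_eq (B : Matrix (Fin k × Fin 3) (Fin k × Fin 3) ℝ) (v w : A k) :
    form B v w = ∑ i, ∑ j, vec v i * (B i j * vec w j) := by
  simp [form, dotProduct, mulVec, Finset.mul_sum]

lemma hasDerivAt_form {B : Matrix (Fin k × Fin 3) (Fin k × Fin 3) ℝ} (hB : B.IsHermitian)
    {f : ℝ → A k} {f' : A k} {t : ℝ} (hf : HasDerivAt f f' t) :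
    HasDerivAt (fun s => form B (f s) (f s)) (2 * form B (f t) f') t := by
  have h1 : HasDerivAt (fun s => ∑ i, ∑ j, vec (f s) i * (B i j * vec (f s) j))
      (∑ i, ∑ j, (vec f' i * (B i j * vec (f t) j) + vec (f t) i * (B i j * vec f' j))) t := by
    refine HasDerivAt.fun_sum fun i _ => HasDerivAt.fun_sum fun j _ => ?_
    exact (hasDerivAt_vec hf i).mul ((hasDerivAt_vec hf j).const_mul (B i j))
  have e : (∑ i, ∑ j, (vec f' i * (B i j * vec (f t) j) + vec (f t) i * (B i j * vec f' j)))
      = 2 * form B (f t) f' := by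
    simp only [Finset.sum_add_distrib]
    rw [← form_eq, ← form_eq, form_comm hB f' (f t)]
    ring
  rw [e] at h1
  refine h1.congr_of_eventuallyEq (Filter.Eventually.of_forall fun s => ?_)
  exact form_eq B _ _

lemma continuous_vec : Continuous (vec : A k → (Fin k × Fin 3 → ℝ)) := vecL.continuous

lemma continuous_form (B : Matrix (Fin k × Fin 3) (Fin k × Fin 3) ℝ) {X : Type*}
    [TopologicalSpace X] {f g : X → A k} (hf : Continuous f) (hg : Continuous g) :
    Continuous (fun x => form B (f x) (g x)) := by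
  have h1 := continuous_pi_iff.1 (continuous_vec.comp hf)
  have h2 := continuous_pi_iff.1 (continuous_vec.comp hg)
  simp only [form_eq]
  refine continuous_finsetSum _ fun i _ => continuous_finsetSum _ fun j _ => ?_
  exact (h1 i).mul (continuous_const.mul (h2 j))

lemma star_mul_self_of_isPt {p : A k} (hp : IsPt p) : star p * p = 1 := by
  ext1 j
  have h : star (p j) * p j = ((Quaternion.normSq (p j) : ℝ) : ℍ[ℝ]) := Quaternion.star_mul_self _
  rw [Pi.mul_apply, Pi.star_apply, h, Quaternion.normSq_eq_norm_mul_self, hp j]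
  simp

lemma mul_star_self_of_isPt {p : A k} (hp : IsPt p) : p * star p = 1 := by
  ext1 j
  have h : p j * star (p j) = ((Quaternion.normSq (p j) : ℝ) : ℍ[ℝ]) := Quaternion.self_mul_star _
  rw [Pi.mul_apply, Pi.star_apply, h, Quaternion.normSq_eq_norm_mul_self, hp j]
  simp

end Pool.Agent.FC640.LS
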