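import Pool.Agent.FC640.LS.Geo

/-! # Periodic geodesics from integral conjugacy classes -/

set_option autoImplicit false
set_option maxHeartbeats 400000

open Real Set MeasureTheory Matrix
open scoped ContDiff Quaternion

namespace Pool.Agent.FC640.LS

variable {k : ℕ}

lemma vec_eq_zero {Z : A k} (hZ : star Z = -Z) (h : vec Z = 0) : Z = 0 := by
  funext j
  have hr := re_eq_zero_of_star (congrFun hZ j : star (Z j) = -(Z j))
  have h0 := congrFun h (j, 0)
  have h1 := congrFun h (j, 1)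
  have h2 := congrFun h (j, 2)
  simp [vec] at h0 h1 h2
  ext
  · simpa using hr
  · simpa using h0
  · simpa using h1
  · simpa using h2

lemma form_pos {B : Matrix (Fin k × Fin 3) (Fin k × Fin 3) ℝ} (hB : B.PosDef) {Z : A k}
    (hZ : star Z = -Z) (h : Z ≠ 0) : 0 < form B Z Z := by
  have h1 : vec Z ≠ 0 := fun h0 => h (vec_eq_zero hZ h0)
  have h2 := hB.dotProduct_mulVec_pos h1
  simpa [form] using h2

lemma exp_eq_one {w : ℍ[ℝ]} (hw : star w = -w) (n : ℤ) (h : ‖w‖ = n * (2 * π)) :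
    NormedSpace.exp w = 1 := by
  rw [Quaternion.exp_of_re_eq_zero w (re_eq_zero_of_star hw), h, Real.cos_int_mul_two_pi]
  have : Real.sin (n * (2 * π)) = 0 := by
    have h1 := Real.sin_int_mul_pi (2 * n)
    rw [← h1]; push_cast; ring_nf
  rw [this]
  simp

lemma gexp_add_period {Z : A k} {t T : ℝ} (hT : gexp (T • Z) = 1) :
    gexp ((t + T) • Z) = gexp (t • Z) := by
  let +nondep : NormedAlgebra ℚ ℍ[ℝ] := .restrictScalars ℚ ℝ ℍ[ℝ]
  funext j
  have h1 : NormedSpace.exp (T • Z j) = 1 := congrFun hT j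
  have h2 : ((t + T) • Z) j = t • Z j + T • Z j := by
    simp [add_smul]
  have h3 : Commute (t • Z j) (T • Z j) := ((Commute.refl (Z j)).smul_left t).smul_right T
  unfold gexp
  rw [h2, NormedSpace.exp_add_of_commute h3, h1, mul_one]
  rfl

theorem exists_geodesic {B : Matrix (Fin k × Fin 3) (Fin k × Fin 3) ℝ} (hB : B.PosDef)
    {m : Fin k → ℤ} (hm : m ≠ 0) {X₀ : A k} (hX₀ : X₀ ∈ cls (fun j => |(m j : ℝ)|)) :
    ∃ (γ : ℝ → A k) (T : ℝ), 0 < T ∧ IsGeodesic B γ ∧
      (∀ t, metric B (γ t) (deriv γ t) (deriv γ t) = 1) ∧ (∀ t, γ (t + T) = γ t) ∧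
      T ^ 2 ≤ (2 * π) ^ 2 * form B X₀ X₀ := by
  have hH : B.IsHermitian := hB.isHermitian
  obtain ⟨Z, hZ, hmin⟩ := (isCompact_cls (fun j => |(m j : ℝ)|)).exists_isMinOn ⟨X₀, hX₀⟩
    (f := fun X => form B X X) (continuous_form B continuous_id continuous_id).continuousOn
  have hmin' : ∀ X ∈ cls (fun j => |(m j : ℝ)|), form B Z Z ≤ form B X X := fun X hX => hmin hX
  obtain ⟨j₀, hj₀⟩ : ∃ j, m j ≠ 0 := by
    by_contra h
    push Not at h
    exact hm (funext h)
  have hZ0 : Z ≠ 0 := by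
    intro h
    have h1 := hZ.2 j₀
    rw [h] at h1
    simp at h1
    exact hj₀ (abs_eq_zero.1 (by exact_mod_cast h1.symm))
  have hq : 0 < form B Z Z := form_pos hB hZ.1 hZ0
  set q := form B Z Z with hqdef
  have hsq : 0 < √q := Real.sqrt_pos.2 hq
  have hcrit := critical_of_min hH hZ hmin'
  set Z' : A k := (√q)⁻¹ • Z with hZ'
  have hZ's : star Z' = -Z' := star_smul_im hZ.1 _
  have hcrit' : ∀ y : A k, star y = -y → form B Z' (Z' * y - y * Z') = 0 := by
    intro y hy
    have e : Z' * y - y * Z' = (√q)⁻¹ • (Z * y - y * Z) := by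
      rw [hZ', smul_mul_assoc, mul_smul_comm, smul_sub]
    rw [e, form_smul_right, hZ', form_smul_left, hcrit y hy]
    simp
  have hT1 : gexp ((2 * π * √q) • Z') = 1 := by
    funext j
    have e : (2 * π * √q) • Z' = (2 * π) • Z := by
      rw [hZ', smul_smul, mul_assoc, mul_inv_cancel₀ hsq.ne', mul_one]
    have e2 : ((2 * π * √q) • Z') j = (2 * π) • Z j := by rw [e]; rfl
    show NormedSpace.exp (((2 * π * √q) • Z') j) = 1
    rw [e2]
    refine exp_eq_one (n := |m j|) ?_ ?_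
    · exact congrFun (star_smul_im hZ.1 (2 * π)) j
    · have h1 : ‖Z j‖ = |(m j : ℝ)| := hZ.2 j
      rw [norm_smul, h1, Real.norm_eq_abs, abs_of_pos (by positivity)]
      push_cast
      ring
  refine ⟨fun t => gexp (t • Z'), 2 * π * √q, by positivity, isGeodesic_gexp hH hZ's hcrit',
    fun t => ?_, fun t => gexp_add_period hT1, ?_⟩
  · have hp : IsPt (gexp (t • Z')) := isPt_gexp (star_smul_im hZ's t)
    rw [(hasDerivAt_gexp Z' t).deriv]
    unfold metric
    rw [← mul_assoc, star_mul_self_of_isPt hp, one_mul, hZ', form_smul_left, form_smul_right,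
      ← hqdef]
    have h1 : √q * √q = q := Real.mul_self_sqrt hq.le
    field_simp
    rw [pow_two, h1]
  · have h1 : √q ^ 2 = q := Real.sq_sqrt hq.le
    rw [mul_pow, h1]
    exact mul_le_mul_of_nonneg_left (hmin' X₀ hX₀) (by positivity)

end Pool.Agent.FC640.LS
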