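import Pool.Agent.FC640.LS.Lin

/-! # Coordinate 2-planes of small area in `ℝ³ ⊕ ℝ³` -/

set_option autoImplicit false
set_option maxHeartbeats 400000

open Real Set Matrix

namespace Pool.Agent.FC640.LS

/-- The index set of `ℝ³ ⊕ ℝ³`. -/
abbrev J : Type := Fin 2 × Fin 3

/-- The two inclusions `ℝ³ → ℝ³ ⊕ ℝ³`. -/
def inj (s : Fin 2) (u : Fin 3 → ℝ) : J → ℝ := fun i => if i.1 = s then u i.2 else 0

lemma dot_eq (x y : J → ℝ) : x ⬝ᵥ y =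
    (x (0, 0) * y (0, 0) + x (0, 1) * y (0, 1) + x (0, 2) * y (0, 2)) +
    (x (1, 0) * y (1, 0) + x (1, 1) * y (1, 1) + x (1, 2) * y (1, 2)) := by
  simp only [dotProduct, Fintype.sum_prod_type, Fin.sum_univ_two, Fin.sum_univ_three]

lemma dot3_eq (x y : Fin 3 → ℝ) : x ⬝ᵥ y = x 0 * y 0 + x 1 * y 1 + x 2 * y 2 := by
  simp only [dotProduct, Fin.sum_univ_three]

lemma inj_dot_inj (s : Fin 2) (u v : Fin 3 → ℝ) : inj s u ⬝ᵥ inj s v = u ⬝ᵥ v := by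
  rw [dot_eq, dot3_eq]
  fin_cases s <;> simp [inj]

lemma inj_dot_ne (u v : Fin 3 → ℝ) : inj 0 u ⬝ᵥ inj 1 v = 0 := by
  rw [dot_eq]; simp [inj]

lemma inj_smul (s : Fin 2) (c : ℝ) (u : Fin 3 → ℝ) : inj s (c • u) = c • inj s u := by
  funext i
  simp only [inj, Pi.smul_apply, smul_eq_mul]
  split_ifs <;> simp

lemma inj_decomp (x : J → ℝ) :
    inj 0 (fun j => x (0, j)) + inj 1 (fun j => x (1, j)) = x := by
  funext ⟨i, j⟩
  fin_cases i <;> simp [inj]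

lemma dot_inj (x : J → ℝ) (s : Fin 2) (u : Fin 3 → ℝ) :
    x ⬝ᵥ inj s u = (fun j => x (s, j)) ⬝ᵥ u := by
  rw [dot_eq, dot3_eq]
  fin_cases s <;> simp [inj]

/-- More unknowns than equations. -/
lemma exists_orth {I : Type*} [Fintype I] {c : ℕ} (hc : c < Fintype.card I)
    (w : Fin c → (I → ℝ)) : ∃ X : I → ℝ, X ≠ 0 ∧ ∀ j, w j ⬝ᵥ X = 0 := by
  classical
  have h : LinearMap.ker (Matrix.mulVecLin (Matrix.of w : Matrix (Fin c) I ℝ)) ≠ ⊥ := by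
    refine LinearMap.ker_ne_bot_of_finrank_lt ?_
    simpa using hc
  obtain ⟨X, hX, hX0⟩ := Submodule.exists_mem_ne_zero_of_ne_bot h
  refine ⟨X, hX0, fun j => ?_⟩
  have h1 : (Matrix.of w : Matrix (Fin c) I ℝ) *ᵥ X = 0 := hX
  exact congrFun h1 j

lemma dot_self_pos {I : Type*} [Fintype I] {X : I → ℝ} (hX : X ≠ 0) : 0 < X ⬝ᵥ X := by
  obtain ⟨i, hi⟩ : ∃ i, X i ≠ 0 := by
    by_contra h; push Not at h; exact hX (funext h)
  have h1 : ∀ j ∈ Finset.univ, 0 ≤ X j * X j := fun j _ => mul_self_nonneg _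
  exact Finset.sum_pos' h1 ⟨i, Finset.mem_univ _, mul_self_pos.2 hi⟩

/-- A unit vector in the direction of `x`, or in any position if `x = 0`. -/
lemma unit_choice {f : Fin 6 → (J → ℝ)} (s : Fin 2) (x : Fin 3 → ℝ) (P : Fin 6 → Prop)
    (hP : ∀ l, P l → l = 4 ∨ l = 5) (hx : ∀ l, P l → f l ⬝ᵥ inj s x = 0) :
    ∃ u : Fin 3 → ℝ, u ⬝ᵥ u = 1 ∧ x = √(x ⬝ᵥ x) • u ∧ ∀ l, P l → f l ⬝ᵥ inj s u = 0 := by
  have norm : ∀ w : Fin 3 → ℝ, w ≠ 0 →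
      ((√(w ⬝ᵥ w))⁻¹ • w) ⬝ᵥ ((√(w ⬝ᵥ w))⁻¹ • w) = 1 ∧ w = √(w ⬝ᵥ w) • ((√(w ⬝ᵥ w))⁻¹ • w) := by
    intro w hw
    have h1 := dot_self_pos hw
    have h2 : 0 < √(w ⬝ᵥ w) := Real.sqrt_pos.2 h1
    constructor
    · rw [smul_dotProduct, dotProduct_smul, smul_eq_mul, smul_eq_mul]
      have h3 : √(w ⬝ᵥ w) * √(w ⬝ᵥ w) = w ⬝ᵥ w := Real.mul_self_sqrt h1.le
      field_simp
      rw [pow_two, h3]
    · rw [smul_smul, mul_inv_cancel₀ h2.ne', one_smul]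
  by_cases h0 : x = 0
  · obtain ⟨w, hw0, hw⟩ := exists_orth (I := Fin 3) (c := 2) (by simp)
      ![fun j => f 4 (s, j), fun j => f 5 (s, j)]
    have hw4 := hw 0
    have hw5 := hw 1
    simp only [Matrix.cons_val_zero, Matrix.cons_val_one] at hw4 hw5
    refine ⟨(√(w ⬝ᵥ w))⁻¹ • w, (norm w hw0).1, by rw [h0]; simp, fun l hl => ?_⟩
    rw [inj_smul, dotProduct_smul, dot_inj]
    rcases hP l hl with rfl | rfl
    · rw [hw4]; simp
    · rw [hw5]; simp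
  · refine ⟨(√(x ⬝ᵥ x))⁻¹ • x, (norm x h0).1, (norm x h0).2, fun l hl => ?_⟩
    rw [inj_smul, dotProduct_smul, hx l hl]
    simp

/-- The area of a coordinate 2-plane in special position with respect to an eigenbasis. -/
theorem exists_units {B : Matrix J J ℝ} (hB : B.PosDef) (σ : Fin 6 ≃ J)
    (hσ : Monotone (fun l => hB.isHermitian.eigenvalues (σ l))) (i : ℕ) (hi : i < 3) :
    ∃ u v : Fin 3 → ℝ, u ⬝ᵥ u = 1 ∧ v ⬝ᵥ v = 1 ∧
      (inj 0 u ⬝ᵥ (B *ᵥ inj 0 u)) * (inj 1 v ⬝ᵥ (B *ᵥ inj 1 v))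
        - (inj 0 u ⬝ᵥ (B *ᵥ inj 1 v)) ^ 2 ≤
      hB.isHermitian.eigenvalues (σ ⟨i, by omega⟩) *
        hB.isHermitian.eigenvalues (σ ⟨5 - i, by omega⟩) := by
  have hH := hB.isHermitian
  set μ : Fin 6 → ℝ := fun l => hH.eigenvalues (σ l) with hμ
  set f : Fin 6 → (J → ℝ) := fun l => ev hH (σ l) with hf
  have hμpos : ∀ l, 0 < μ l := fun l => hB.eigenvalues_pos _
  have hsum : ∀ x : J → ℝ, ∑ l, (f l ⬝ᵥ x) ^ 2 = x ⬝ᵥ x := by
    intro x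
    rw [← sum_sq_ev hH x]
    exact Equiv.sum_comp σ (fun i => (ev hH i ⬝ᵥ x) ^ 2)
  have hquad : ∀ x : J → ℝ, x ⬝ᵥ (B *ᵥ x) = ∑ l, μ l * (f l ⬝ᵥ x) ^ 2 := by
    intro x
    rw [quad_ev hH x]
    exact (Equiv.sum_comp σ (fun i => hH.eigenvalues i * (ev hH i ⬝ᵥ x) ^ 2)).symm
  have hle : ∀ (c : Fin 6) (x : J → ℝ), (∀ l, c < l → f l ⬝ᵥ x = 0) →
      x ⬝ᵥ (B *ᵥ x) ≤ μ c * (x ⬝ᵥ x) := by
    intro c x hx
    rw [hquad, ← hsum, Finset.mul_sum]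
    refine Finset.sum_le_sum fun l _ => ?_
    rcases le_or_gt l c with h | h
    · exact mul_le_mul_of_nonneg_right (hσ h) (sq_nonneg _)
    · rw [hx l h]; simp
  have hnn : ∀ x : J → ℝ, 0 ≤ x ⬝ᵥ (B *ᵥ x) := by
    intro x
    rw [hquad]
    exact Finset.sum_nonneg fun l _ => mul_nonneg (hμpos l).le (sq_nonneg _)
  -- the special vector
  obtain ⟨X, hX0, hX⟩ := exists_orth (I := J) (c := 5) (by simp)
    (fun c : Fin 5 => if h : c.val + 1 + i ≤ 5 then f ⟨c.val + 1 + i, by omega⟩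
      else inj 0 (fun j => f ⟨c.val + 1, by omega⟩ (0, j)))
  have hX1 : ∀ l : Fin 6, i < l.val → f l ⬝ᵥ X = 0 := by
    intro l hl
    have h1 := hX ⟨l.val - 1 - i, by omega⟩
    have h2 : l.val - 1 - i + 1 + i ≤ 5 := by omega
    rw [dif_pos h2] at h1
    have h3 : (⟨l.val - 1 - i + 1 + i, by omega⟩ : Fin 6) = l := by
      ext; simp; omega
    rwa [h3] at h1
  have hX2 : ∀ l : Fin 6, 5 - i < l.val → f l ⬝ᵥ inj 0 (fun j => X (0, j)) = 0 := by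
    intro l hl
    have h1 := hX ⟨l.val - 1, by omega⟩
    have h2 : ¬ (l.val - 1 + 1 + i ≤ 5) := by omega
    rw [dif_neg h2] at h1
    have h3 : (⟨l.val - 1 + 1, by omega⟩ : Fin 6) = l := by
      ext; simp; omega
    rw [h3] at h1
    rw [dot_inj]
    rw [dotProduct_comm, dot_inj, dotProduct_comm] at h1
    exact h1
  have hX3 : ∀ l : Fin 6, 5 - i < l.val → f l ⬝ᵥ inj 1 (fun j => X (1, j)) = 0 := by
    intro l hl
    have h1 := hX1 l (by omega)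
    rw [← inj_decomp X, dotProduct_add, hX2 l hl, zero_add] at h1
    exact h1
  have hPP : ∀ l : Fin 6, 5 - i < l.val → l = 4 ∨ l = 5 := by
    intro l hl
    have : l.val = 4 ∨ l.val = 5 := by omega
    rcases this with h | h
    · left; ext; exact h
    · right; ext; exact h
  obtain ⟨u, hu1, hu2, hu3⟩ := unit_choice (f := f) 0 (fun j => X (0, j))
    (fun l => 5 - i < l.val) hPP hX2
  obtain ⟨v, hv1, hv2, hv3⟩ := unit_choice (f := f) 1 (fun j => X (1, j))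
    (fun l => 5 - i < l.val) hPP hX3
  set a := √((fun j => X (0, j)) ⬝ᵥ (fun j => X (0, j))) with ha
  set b := √((fun j => X (1, j)) ⬝ᵥ (fun j => X (1, j))) with hb
  set U := inj 0 u with hU
  set V := inj 1 v with hV
  have hXUV : X = a • U + b • V := by
    conv_lhs => rw [← inj_decomp X, hu2, hv2]
    rw [inj_smul, inj_smul]
  have hUU : U ⬝ᵥ U = 1 := by rw [hU, inj_dot_inj, hu1]
  have hVV : V ⬝ᵥ V = 1 := by rw [hV, inj_dot_inj, hv1]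
  have hUV : U ⬝ᵥ V = 0 := inj_dot_ne u v
  have hVU : V ⬝ᵥ U = 0 := by rw [dotProduct_comm, hUV]
  set α := U ⬝ᵥ (B *ᵥ U) with hα
  set β := U ⬝ᵥ (B *ᵥ V) with hβ
  set γ := V ⬝ᵥ (B *ᵥ V) with hγ
  have hβ' : V ⬝ᵥ (B *ᵥ U) = β := by
    have hT : Bᵀ = B := by
      have := hH.eq
      rwa [conjTranspose_eq_transpose_of_trivial] at this
    rw [hβ, dotProduct_mulVec, ← mulVec_transpose, hT, dotProduct_comm]
  have hcomb : ∀ p q : ℝ, (p • U + q • V) ⬝ᵥ (B *ᵥ (p • U + q • V))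
      = α * p ^ 2 + 2 * β * p * q + γ * q ^ 2 := by
    intro p q
    simp only [mulVec_add, mulVec_smul, dotProduct_add, add_dotProduct, dotProduct_smul,
      smul_dotProduct, smul_eq_mul]
    rw [← hα, ← hβ, ← hγ, hβ']
    ring
  have hdot : ∀ p q : ℝ, (p • U + q • V) ⬝ᵥ (p • U + q • V) = p ^ 2 + q ^ 2 := by
    intro p q
    simp only [dotProduct_add, add_dotProduct, dotProduct_smul, smul_dotProduct, smul_eq_mul]
    rw [hUU, hVV, hUV, hVU]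
    ring
  have hab : 0 < a ^ 2 + b ^ 2 := by
    rw [← hdot a b, ← hXUV]
    exact dot_self_pos hX0
  have h1 : α * a ^ 2 + 2 * β * a * b + γ * b ^ 2 ≤ μ ⟨i, by omega⟩ * (a ^ 2 + b ^ 2) := by
    rw [← hcomb, ← hdot a b, ← hXUV]
    exact hle _ _ (fun l hl => hX1 l hl)
  have h2 : α * (-b) ^ 2 + 2 * β * (-b) * a + γ * a ^ 2 ≤
      μ ⟨5 - i, by omega⟩ * ((-b) ^ 2 + a ^ 2) := by
    rw [← hcomb, ← hdot (-b) a]
    refine hle _ _ (fun l hl => ?_)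
    have hl' : 5 - i < l.val := hl
    rw [dotProduct_add, dotProduct_smul, dotProduct_smul, hu3 l hl', hv3 l hl']
    simp
  have h3 : 0 ≤ α * a ^ 2 + 2 * β * a * b + γ * b ^ 2 := by rw [← hcomb]; exact hnn _
  have h4 : 0 ≤ α * (-b) ^ 2 + 2 * β * (-b) * a + γ * a ^ 2 := by rw [← hcomb]; exact hnn _
  refine ⟨u, v, hu1, hv1, ?_⟩
  have h5 := mul_le_mul h1 h2 h4 (mul_nonneg (hμpos _).le hab.le)
  have h6 : (α * γ - β ^ 2) * (a ^ 2 + b ^ 2) ^ 2 ≤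
      μ ⟨i, by omega⟩ * μ ⟨5 - i, by omega⟩ * (a ^ 2 + b ^ 2) ^ 2 := by
    nlinarith [sq_nonneg (-(a * b * α) + (a ^ 2 - b ^ 2) * β + a * b * γ)]
  exact le_of_mul_le_mul_right h6 (by positivity)

end Pool.Agent.FC640.LS
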