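import Mathlib

/-! # The first variation of the energy in a normed algebra with involution -/

set_option autoImplicit false
set_option maxHeartbeats 400000

open Real Set MeasureTheory
open scoped ContDiff

namespace Pool.Agent.FC640.LS

/-- Derivative under the integral sign, for smooth integrands. -/
lemma hasDerivAt_integral_of_continuous {F F' : ℝ → ℝ → ℝ} {a b : ℝ}
    (hF : ∀ s, Continuous (F s)) (hF' : Continuous (fun x : ℝ × ℝ => F' x.1 x.2))
    (h : ∀ s t, HasDerivAt (fun s => F s t) (F' s t) s) (s₀ : ℝ) :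
    HasDerivAt (fun s => ∫ t in a..b, F s t) (∫ t in a..b, F' s₀ t) s₀ := by
  have hK : IsCompact (Icc (s₀ - 1) (s₀ + 1) ×ˢ uIcc a b) := isCompact_Icc.prod isCompact_uIcc
  obtain ⟨C, hC⟩ := hK.exists_bound_of_continuousOn hF'.continuousOn
  refine (intervalIntegral.hasDerivAt_integral_of_dominated_loc_of_deriv_le (F := F) (F' := F')
    (bound := fun _ => C) (s := Icc (s₀ - 1) (s₀ + 1)) (Icc_mem_nhds (by linarith) (by linarith))
    ?_ ?_ ?_ ?_ ?_ ?_).2
  · exact Filter.Eventually.of_forall fun s => (hF s).aestronglyMeasurable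
  · exact (hF s₀).intervalIntegrable _ _
  · exact (hF'.comp (Continuous.prodMk_right s₀)).aestronglyMeasurable
  · refine Filter.Eventually.of_forall fun t ht s hs => ?_
    exact hC (s, t) ⟨hs, uIoc_subset_uIcc ht⟩
  · exact intervalIntegrable_const
  · exact Filter.Eventually.of_forall fun t _ s _ => h s t

section slices

variable {E : Type*} [NormedAddCommGroup E] [NormedSpace ℝ E] {Ψ : ℝ × ℝ → E}

lemma hasDerivAt_slice_left (hΨ : Differentiable ℝ Ψ) (s t : ℝ) :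
    HasDerivAt (fun s => Ψ (s, t)) (fderiv ℝ Ψ (s, t) (1, 0)) s := by
  have h1 : HasDerivAt (fun s : ℝ => (s, t)) ((1 : ℝ), (0 : ℝ)) s :=
    (hasDerivAt_id s).prodMk (hasDerivAt_const s t)
  exact (hΨ (s, t)).hasFDerivAt.comp_hasDerivAt s h1

lemma hasDerivAt_slice_right (hΨ : Differentiable ℝ Ψ) (s t : ℝ) :
    HasDerivAt (fun t => Ψ (s, t)) (fderiv ℝ Ψ (s, t) (0, 1)) t := by
  have h1 : HasDerivAt (fun t : ℝ => (s, t)) ((0 : ℝ), (1 : ℝ)) t :=
    (hasDerivAt_const t s).prodMk (hasDerivAt_id t)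
  exact (hΨ (s, t)).hasFDerivAt.comp_hasDerivAt t h1

lemma contDiff_dir (hΨ : ContDiff ℝ ∞ Ψ) (v : ℝ × ℝ) :
    ContDiff ℝ ∞ (fun x => fderiv ℝ Ψ x v) :=
  (hΨ.fderiv_right (m := ∞) (by simp)).clm_apply contDiff_const

lemma fderiv_dir (hΨ : ContDiff ℝ ∞ Ψ) (v w x : ℝ × ℝ) :
    fderiv ℝ (fun x => fderiv ℝ Ψ x v) x w = fderiv ℝ (fderiv ℝ Ψ) x w v := by
  have hfd : Differentiable ℝ (fderiv ℝ Ψ) :=
    (hΨ.fderiv_right (m := ∞) (by simp)).differentiable (by simp)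
  have h1 := (hfd x).hasFDerivAt.clm_apply (hasFDerivAt_const v x)
  rw [h1.fderiv]
  simp

lemma fderiv_comm (hΨ : ContDiff ℝ ∞ Ψ) (v w x : ℝ × ℝ) :
    fderiv ℝ (fun x => fderiv ℝ Ψ x v) x w = fderiv ℝ (fun x => fderiv ℝ Ψ x w) x v := by
  have h : IsSymmSndFDerivAt ℝ Ψ x := by
    refine ContDiffAt.isSymmSndFDerivAt (n := 2) ?_ (by simp)
    exact hΨ.contDiffAt.of_le (WithTop.coe_le_coe.2 le_top)
  rw [fderiv_dir hΨ, fderiv_dir hΨ]
  exact h w v

end slices

variable {𝔸 : Type*} [NormedRing 𝔸] [NormedAlgebra ℝ 𝔸] [StarRing 𝔸] [ContinuousStar 𝔸]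
  [StarModule ℝ 𝔸]

/-- The first variation. -/
theorem first_variation {β : 𝔸 → 𝔸 → ℝ}
    (hβ2 : ∀ (f : ℝ → 𝔸) (f' : 𝔸) (t : ℝ), HasDerivAt f f' t →
      HasDerivAt (fun s => β (f s) (f s)) (2 * β (f t) f') t)
    (hβ1 : ∀ (z : 𝔸) (f : ℝ → 𝔸) (f' : 𝔸) (t : ℝ), HasDerivAt f f' t →
      HasDerivAt (fun s => β z (f s)) (β z f') t)
    (hβc : Continuous (fun p : 𝔸 × 𝔸 => β p.1 p.2))
    (hβa : ∀ u v w, β u (v + w) = β u v + β u w)
    {Z : 𝔸} (hZ : star Z = -Z) (hcrit : ∀ y : 𝔸, star y = -y → β Z (Z * y - y * Z) = 0)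
    {γ : ℝ → 𝔸} (hγpt : ∀ t, star (γ t) * γ t = 1 ∧ γ t * star (γ t) = 1)
    (hγ : ∀ t, HasDerivAt γ (γ t * Z) t)
    {a b : ℝ} {Γ : ℝ × ℝ → 𝔸} (hΓ : ContDiff ℝ ∞ Γ) (hpt : ∀ x, star (Γ x) * Γ x = 1)
    (h0 : ∀ t, Γ (0, t) = γ t) (ha : ∀ s, Γ (s, a) = γ a) (hb : ∀ s, Γ (s, b) = γ b) :
    HasDerivAt (fun s => ∫ t in a..b, β (star (Γ (s, t)) * deriv (fun t => Γ (s, t)) t)
      (star (Γ (s, t)) * deriv (fun t => Γ (s, t)) t)) 0 0 := by
  have hd : Differentiable ℝ Γ := hΓ.differentiable (by simp)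
  set D1 : ℝ × ℝ → 𝔸 := fun x => fderiv ℝ Γ x (1, 0) with hD1
  set D2 : ℝ × ℝ → 𝔸 := fun x => fderiv ℝ Γ x (0, 1) with hD2
  have cD1 : ContDiff ℝ ∞ D1 := contDiff_dir hΓ _
  have cD2 : ContDiff ℝ ∞ D2 := contDiff_dir hΓ _
  have dD1 : Differentiable ℝ D1 := cD1.differentiable (by simp)
  have dD2 : Differentiable ℝ D2 := cD2.differentiable (by simp)
  set M : ℝ × ℝ → 𝔸 := fun x => fderiv ℝ D2 x (1, 0) with hM
  have hMc : Continuous M := (contDiff_dir cD2 _).continuous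
  have hD2s : ∀ s t, HasDerivAt (fun s => D2 (s, t)) (M (s, t)) s := fun s t =>
    hasDerivAt_slice_left dD2 s t
  have hD1t : ∀ s t, HasDerivAt (fun t => D1 (s, t)) (M (s, t)) t := by
    intro s t
    have h := hasDerivAt_slice_right dD1 s t
    have e : fderiv ℝ D1 (s, t) (0, 1) = M (s, t) := fderiv_comm hΓ _ _ _
    rwa [e] at h
  have hΓs : ∀ s t, HasDerivAt (fun s => Γ (s, t)) (D1 (s, t)) s := fun s t =>
    hasDerivAt_slice_left hd s t
  have hΓt : ∀ s t, HasDerivAt (fun t => Γ (s, t)) (D2 (s, t)) t := fun s t =>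
    hasDerivAt_slice_right hd s t
  clear_value D1 D2 M
  -- the body velocity
  set ψ : ℝ × ℝ → 𝔸 := fun x => star (Γ x) * D2 x with hψ
  set ψ' : ℝ × ℝ → 𝔸 := fun x => star (D1 x) * D2 x + star (Γ x) * M x with hψ'
  have hψs : ∀ s t, HasDerivAt (fun s => ψ (s, t)) (ψ' (s, t)) s := fun s t =>
    ((hΓs s t).star).mul (hD2s s t)
  have cΓ := hΓ.continuous
  have cψ : Continuous ψ := cΓ.star.mul cD2.continuous
  have cψ' : Continuous ψ' :=
    (cD1.continuous.star.mul cD2.continuous).add (cΓ.star.mul hMc)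
  have hE : (fun s => ∫ t in a..b, β (star (Γ (s, t)) * deriv (fun t => Γ (s, t)) t)
      (star (Γ (s, t)) * deriv (fun t => Γ (s, t)) t))
      = fun s => ∫ t in a..b, β (ψ (s, t)) (ψ (s, t)) := by
    funext s
    refine intervalIntegral.integral_congr fun t _ => ?_
    simp only [(hΓt s t).deriv, hψ]
  rw [hE]
  have key := hasDerivAt_integral_of_continuous (a := a) (b := b)
    (F := fun s t => β (ψ (s, t)) (ψ (s, t)))
    (F' := fun s t => 2 * β (ψ (s, t)) (ψ' (s, t)))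
    (fun s => hβc.comp ((cψ.comp (Continuous.prodMk_right s)).prodMk
      (cψ.comp (Continuous.prodMk_right s))))
    (continuous_const.mul (hβc.comp (cψ.prodMk cψ')))
    (fun s t => hβ2 _ _ _ (hψs s t)) 0
  -- the derivative vanishes
  set η : ℝ → 𝔸 := fun t => star (Γ (0, t)) * D1 (0, t) with hη
  have hη' : ∀ t, HasDerivAt η (star (D2 (0, t)) * D1 (0, t) + star (Γ (0, t)) * M (0, t)) t :=
    fun t => ((hΓt 0 t).star).mul (hD1t 0 t)
  have hD2γ : ∀ t, D2 (0, t) = γ t * Z := by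
    intro t
    have h1 := hΓt 0 t
    have h2 : (fun t => Γ (0, t)) = γ := funext h0
    rw [h2] at h1
    exact h1.unique (hγ t)
  have hψ0 : ∀ t, ψ (0, t) = Z := by
    intro t
    simp only [hψ]
    rw [hD2γ, h0, ← mul_assoc, (hγpt t).1, one_mul]
  have hηi : ∀ t, star (η t) = -η t := by
    intro t
    have h1 : HasDerivAt (fun s => star (Γ (s, t)) * Γ (s, t))
        (star (D1 (0, t)) * Γ (0, t) + star (Γ (0, t)) * D1 (0, t)) 0 :=
      ((hΓs 0 t).star).mul (hΓs 0 t)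
    have h2 : (fun s => star (Γ (s, t)) * Γ (s, t)) = fun _ => (1 : 𝔸) :=
      funext fun s => hpt (s, t)
    rw [h2] at h1
    have h3 := h1.unique (hasDerivAt_const (0 : ℝ) (1 : 𝔸))
    have h4 : star (η t) = star (D1 (0, t)) * Γ (0, t) := by
      simp only [hη, star_mul, star_star]
    rw [h4]
    exact eq_neg_of_add_eq_zero_left h3
  have hψ'0 : ∀ t, ψ' (0, t) = (star (D2 (0, t)) * D1 (0, t) + star (Γ (0, t)) * M (0, t))
      + (Z * η t - η t * Z) := by
    intro t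
    have e1 : star (D2 (0, t)) * D1 (0, t) = -(Z * η t) := by
      rw [hD2γ, star_mul, hZ, mul_assoc, ← h0]
      simp [hη]
    have e2 : star (D1 (0, t)) * D2 (0, t) = -(η t * Z) := by
      have : star (D1 (0, t)) * Γ (0, t) = -η t := by
        rw [← hηi t]; simp only [hη, star_mul, star_star]
      rw [hD2γ, ← h0, ← mul_assoc, this, neg_mul]
    simp only [hψ']
    rw [e1, e2]
    abel
  have hform : ∀ t, 2 * β (ψ (0, t)) (ψ' (0, t)) = 2 * β Z
      (star (D2 (0, t)) * D1 (0, t) + star (Γ (0, t)) * M (0, t)) := by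
    intro t
    rw [hψ0, hψ'0, hβa, hcrit (η t) (hηi t), add_zero]
  have hηa : η a = 0 := by
    have h1 := hΓs 0 a
    have h2 : (fun s => Γ (s, a)) = fun _ => γ a := funext ha
    rw [h2] at h1
    have h3 := h1.unique (hasDerivAt_const (0 : ℝ) (γ a))
    simp only [hη, h3, mul_zero]
  have hηb : η b = 0 := by
    have h1 := hΓs 0 b
    have h2 : (fun s => Γ (s, b)) = fun _ => γ b := funext hb
    rw [h2] at h1
    have h3 := h1.unique (hasDerivAt_const (0 : ℝ) (γ b))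
    simp only [hη, h3, mul_zero]
  have hint : (∫ t in a..b, 2 * β (ψ (0, t)) (ψ' (0, t))) = 0 := by
    have h1 := intervalIntegral.integral_eq_sub_of_hasDerivAt (a := a) (b := b)
      (f := fun t => 2 * β Z (η t)) (f' := fun t => 2 * β (ψ (0, t)) (ψ' (0, t)))
      (fun t _ => by
        rw [hform]
        exact (hβ1 Z _ _ _ (hη' t)).const_mul 2)
      ((continuous_const.mul (hβc.comp ((cψ.comp (Continuous.prodMk_right 0)).prodMk
        (cψ'.comp (Continuous.prodMk_right 0))))).intervalIntegrable _ _)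
    rw [h1, hηa, hηb, sub_self]
  rw [hint] at key
  exact key

end Pool.Agent.FC640.LS
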