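import Pool.Agent.FC640.LS.Defs
import Pool.Agent.FC640.LS.Var

/-! # One-parameter subgroups that are geodesics -/

set_option autoImplicit false
set_option maxHeartbeats 400000

open Real Set MeasureTheory Matrix
open scoped ContDiff Quaternion

namespace Pool.Agent.FC640.LS

variable {k : ℕ}

instance starModuleQuat : StarModule ℝ ℍ[ℝ] := ⟨fun r a => by
  have h : star r = r := rfl
  rw [h]; ext <;> simp⟩

lemma hasDerivAt_form_right (B : Matrix (Fin k × Fin 3) (Fin k × Fin 3) ℝ) (z : A k)
    {f : ℝ → A k} {f' : A k} {t : ℝ} (hf : HasDerivAt f f' t) :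
    HasDerivAt (fun s => form B z (f s)) (form B z f') t := by
  have h1 : HasDerivAt (fun s => ∑ i, ∑ j, vec z i * (B i j * vec (f s) j))
      (∑ i, ∑ j, vec z i * (B i j * vec f' j)) t := by
    refine HasDerivAt.fun_sum fun i _ => HasDerivAt.fun_sum fun j _ => ?_
    exact (((hasDerivAt_vec hf j).const_mul (B i j)).const_mul (vec z i))
  rw [← form_eq] at h1
  refine h1.congr_of_eventuallyEq (Filter.Eventually.of_forall fun s => ?_)
  exact form_eq B _ _

lemma re_eq_zero_of_star {q : ℍ[ℝ]} (h : star q = -q) : q.re = 0 := by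
  have := congrArg QuaternionAlgebra.re h
  simp at this
  linarith

/-- The exponential map of `(S³)^k`. -/
noncomputable def gexp (Z : A k) : A k := fun j => NormedSpace.exp (Z j)

lemma isPt_gexp {Z : A k} (hZ : star Z = -Z) : IsPt (gexp Z) := by
  intro j
  have h2 : star (Z j) = -(Z j) := congrFun hZ j
  unfold gexp
  rw [Quaternion.norm_exp, re_eq_zero_of_star h2]
  simp

lemma hasDerivAt_gexp (Z : A k) (t : ℝ) :
    HasDerivAt (fun t : ℝ => gexp (t • Z)) (gexp (t • Z) * Z) t := by
  rw [hasDerivAt_pi]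
  intro j
  exact hasDerivAt_exp_smul_const (𝕂 := ℝ) (Z j) t

lemma contDiff_gexp (Z : A k) : ContDiff ℝ ∞ (fun t : ℝ => gexp (t • Z)) := by
  rw [contDiff_pi]
  intro j
  have h1 : ContDiff ℝ ∞ (NormedSpace.exp : ℍ[ℝ] → ℍ[ℝ]) :=
    contDiff_iff_contDiffAt.2 fun x => (NormedSpace.exp_analytic (𝕂 := ℝ) x).contDiffAt
  exact h1.comp (contDiff_id.smul contDiff_const)

lemma star_smul_im {Z : A k} (hZ : star Z = -Z) (t : ℝ) : star (t • Z) = -(t • Z) := by
  have h : star (t • Z) = t • star Z := star_smul t Z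
  rw [h, hZ, smul_neg]

/-- If `B (Z, [Z, y]) = 0` for all `y`, then `t ↦ exp (t Z)` is a geodesic. -/
theorem isGeodesic_gexp {B : Matrix (Fin k × Fin 3) (Fin k × Fin 3) ℝ} (hB : B.IsHermitian)
    {Z : A k} (hZ : star Z = -Z)
    (hcrit : ∀ y : A k, star y = -y → form B Z (Z * y - y * Z) = 0) :
    IsGeodesic B (fun t => gexp (t • Z)) := by
  have hpt : ∀ t : ℝ, IsPt (gexp (t • Z)) := fun t => isPt_gexp (star_smul_im hZ t)
  refine ⟨contDiff_gexp Z, hpt, fun a b _ Γ hΓ hp h0 ha hb => ?_⟩
  exact first_variation (β := form B) (fun f f' t h => hasDerivAt_form hB h)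
    (fun z f f' t h => hasDerivAt_form_right B z h)
    (continuous_form B continuous_fst continuous_snd) (form_add_right B) hZ hcrit
    (fun t => ⟨star_mul_self_of_isPt (hpt t), mul_star_self_of_isPt (hpt t)⟩)
    (hasDerivAt_gexp Z) hΓ (fun x => star_mul_self_of_isPt (hp x)) h0 ha hb

/-- The conjugacy classes: tuples of imaginary quaternions of given norms. -/
def cls (m : Fin k → ℝ) : Set (A k) := {X | star X = -X ∧ ∀ j, ‖X j‖ = m j}

lemma isCompact_cls (m : Fin k → ℝ) : IsCompact (cls m) := by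
  refine Metric.isCompact_of_isClosed_isBounded ?_ ?_
  · have h1 : IsClosed {X : A k | star X = -X} := isClosed_eq continuous_star continuous_neg
    have h2 : IsClosed {X : A k | ∀ j, ‖X j‖ = m j} := by
      simp only [ofPred_forall]
      exact isClosed_iInter fun j => isClosed_eq (continuous_apply j).norm continuous_const
    exact h1.inter h2
  · refine (Metric.isBounded_closedBall (x := (0 : A k)) (r := ∑ j, |m j|)).subset ?_
    intro X hX
    rw [mem_closedBall_zero_iff]
    refine (pi_norm_le_iff_of_nonneg (Finset.sum_nonneg fun j _ => abs_nonneg _)).2 fun j => ?_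
    rw [hX.2 j]
    exact (le_abs_self _).trans
      (Finset.single_le_sum (f := fun j => |m j|) (fun i _ => abs_nonneg _) (Finset.mem_univ j))

lemma conj_mem_cls {m : Fin k → ℝ} {Z : A k} (hZ : Z ∈ cls m) {g : A k} (hg : IsPt g) :
    star g * Z * g ∈ cls m := by
  refine ⟨?_, fun j => ?_⟩
  · rw [star_mul, star_mul, star_star, hZ.1]
    simp [mul_assoc]
  · have : (star g * Z * g) j = star (g j) * Z j * g j := rfl
    rw [this, norm_mul, norm_mul, norm_star, hg j, hZ.2 j]
    simp

/-- A minimum of the form on a class is critical. -/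
theorem critical_of_min {B : Matrix (Fin k × Fin 3) (Fin k × Fin 3) ℝ} (hB : B.IsHermitian)
    {m : Fin k → ℝ} {Z : A k} (hZ : Z ∈ cls m) (hmin : ∀ X ∈ cls m, form B Z Z ≤ form B X X)
    (y : A k) (hy : star y = -y) : form B Z (Z * y - y * Z) = 0 := by
  set g : ℝ → A k := fun s => gexp (s • y) with hg
  have hgd : ∀ s, HasDerivAt g (g s * y) s := fun s => hasDerivAt_gexp y s
  have hgp : ∀ s, IsPt (g s) := fun s => isPt_gexp (star_smul_im hy s)
  have hg0 : g 0 = 1 := by
    funext j
    simp only [hg, gexp, zero_smul, Pi.zero_apply, Pi.one_apply]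
    exact NormedSpace.exp_zero
  have hX : HasDerivAt (fun s => star (g s) * Z * g s)
      (star (g 0 * y) * Z * g 0 + star (g 0) * Z * (g 0 * y)) 0 :=
    (((hgd 0).star).mul_const Z).mul (hgd 0)
  have e : star (g 0 * y) * Z * g 0 + star (g 0) * Z * (g 0 * y) = Z * y - y * Z := by
    rw [hg0]
    simp only [star_mul, star_one, mul_one, one_mul, hy]
    rw [neg_mul]; abel
  rw [e] at hX
  have h1 := hasDerivAt_form hB hX
  have hmin' : IsLocalMin (fun s => form B (star (g s) * Z * g s) (star (g s) * Z * g s)) 0 := by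
    refine Filter.Eventually.of_forall fun s => ?_
    have h2 : star (g 0) * Z * g 0 = Z := by rw [hg0]; simp
    simp only [h2]
    exact hmin _ (conj_mem_cls hZ (hgp s))
  have h3 := hmin'.hasDerivAt_eq_zero h1
  have h2 : star (g 0) * Z * g 0 = Z := by rw [hg0]; simp
  simp only [h2] at h3
  linarith

end Pool.Agent.FC640.LS
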