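import Mathlib

/-! # Linear algebra: short integral vectors -/

set_option autoImplicit false
set_option maxHeartbeats 400000

open Real Set Matrix

namespace Pool.Agent.FC640.LS

section eigen

variable {n : Type*} [Fintype n] [DecidableEq n] {B : Matrix n n ℝ}

/-- The eigenvectors as functions. -/
noncomputable def ev (hB : B.IsHermitian) (i : n) : n → ℝ := WithLp.ofLp (hB.eigenvectorBasis i)

lemma sum_ev (hB : B.IsHermitian) (x : n → ℝ) : ∑ i, (ev hB i ⬝ᵥ x) • ev hB i = x := by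
  have h := hB.eigenvectorBasis.sum_repr' (WithLp.toLp 2 x)
  have h2 := congrArg WithLp.ofLp h
  rw [WithLp.ofLp_sum] at h2
  simp only [WithLp.ofLp_smul] at h2
  refine Eq.trans (Finset.sum_congr rfl fun i _ => ?_) h2
  unfold ev
  congr 1
  rw [EuclideanSpace.inner_eq_star_dotProduct, dotProduct_comm]
  simp

lemma sum_sq_ev (hB : B.IsHermitian) (x : n → ℝ) : ∑ i, (ev hB i ⬝ᵥ x) ^ 2 = x ⬝ᵥ x := by
  conv_rhs => rw [← sum_ev hB x, sum_dotProduct]
  refine Finset.sum_congr rfl fun i _ => ?_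
  rw [smul_dotProduct, sum_ev hB x, smul_eq_mul, pow_two]

lemma quad_ev (hB : B.IsHermitian) (x : n → ℝ) :
    x ⬝ᵥ (B *ᵥ x) = ∑ i, hB.eigenvalues i * (ev hB i ⬝ᵥ x) ^ 2 := by
  have h1 : B *ᵥ x = ∑ i, (ev hB i ⬝ᵥ x) • (hB.eigenvalues i • ev hB i) := by
    conv_lhs => rw [← sum_ev hB x, Matrix.mulVec_sum]
    refine Finset.sum_congr rfl fun i _ => ?_
    rw [Matrix.mulVec_smul]
    congr 1
    exact hB.mulVec_eigenvectorBasis i
  rw [h1, dotProduct_sum]
  refine Finset.sum_congr rfl fun i _ => ?_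
  rw [dotProduct_smul, dotProduct_smul, dotProduct_comm x]
  simp only [smul_eq_mul]
  ring

lemma ev_self (hB : B.IsHermitian) (i : n) : ev hB i ⬝ᵥ ev hB i = 1 := by
  have h := hB.eigenvectorBasis.orthonormal.1 i
  have h2 : inner ℝ (hB.eigenvectorBasis i) (hB.eigenvectorBasis i) = 1 := by
    rw [real_inner_self_eq_norm_sq, h]; norm_num
  rw [EuclideanSpace.inner_eq_star_dotProduct] at h2
  simpa [ev] using h2

/-- A unit vector with small value of the form. -/
lemma exists_unit_le [Nonempty n] (hB : B.PosDef) :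
    ∃ x : n → ℝ, x ⬝ᵥ x = 1 ∧ 0 < x ⬝ᵥ (B *ᵥ x) ∧
      (x ⬝ᵥ (B *ᵥ x)) ^ Fintype.card n ≤ B.det := by
  obtain ⟨i, -, hi⟩ := Finset.exists_min_image Finset.univ hB.isHermitian.eigenvalues
    Finset.univ_nonempty
  refine ⟨ev hB.isHermitian i, ev_self _ i, ?_, ?_⟩
  · have h0 : ev hB.isHermitian i ≠ 0 := by
      intro h
      have := ev_self hB.isHermitian i
      rw [h] at this
      simp at this
    simpa using hB.dotProduct_mulVec_pos h0
  · have h1 : ev hB.isHermitian i ⬝ᵥ (B *ᵥ ev hB.isHermitian i) = hB.isHermitian.eigenvalues i := by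
      have : B *ᵥ ev hB.isHermitian i = hB.isHermitian.eigenvalues i • ev hB.isHermitian i :=
        hB.isHermitian.mulVec_eigenvectorBasis i
      rw [this, dotProduct_smul, ev_self]
      simp
    rw [h1, hB.isHermitian.det_eq_prod_eigenvalues]
    simp only [RCLike.ofReal_real_eq_id, id]
    rw [← Finset.card_univ, ← Finset.prod_const]
    exact Finset.prod_le_prod (fun j _ => (hB.eigenvalues_pos i).le) (fun j hj => hi j hj)

end eigen

/-- Minkowski's theorem for binary forms, with a weak constant. -/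
lemma exists_int_le {α β γ : ℝ} (hα : 0 < α) (hD : 0 < α * γ - β ^ 2) :
    ∃ m n : ℤ, (m ≠ 0 ∨ n ≠ 0) ∧
      α * (m : ℝ) ^ 2 + 2 * β * m * n + γ * (n : ℝ) ^ 2 ≤ 2 * √(α * γ - β ^ 2) := by
  set D := α * γ - β ^ 2 with hDdef
  have hsD : 0 < √D := Real.sqrt_pos.2 hD
  have hsD2 : √D * √D = D := Real.mul_self_sqrt hD.le
  by_cases h : α < √D
  · refine ⟨1, 0, Or.inl one_ne_zero, ?_⟩
    push_cast
    nlinarith
  push Not at h
  set s := √(α / √D) with hs
  have hs2 : s ^ 2 = α / √D := Real.sq_sqrt (by positivity)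
  have hs1 : 1 ≤ s := by
    rw [hs, Real.one_le_sqrt, le_div_iff₀ hsD]
    linarith
  set N := ⌊s⌋₊ with hN
  have hN1 : 1 ≤ N := Nat.floor_pos.2 hs1
  have hNs : (N : ℝ) ≤ s := Nat.floor_le (by linarith)
  have hsN : s < N + 1 := Nat.lt_floor_add_one s
  obtain ⟨j, k, hk0, hkN, hjk⟩ := Real.exists_int_int_abs_mul_sub_le (β / α) (n := N) (by omega)
  refine ⟨-j, k, Or.inr hk0.ne', ?_⟩
  have e : α * ((-j : ℤ) : ℝ) ^ 2 + 2 * β * ((-j : ℤ) : ℝ) * k + γ * (k : ℝ) ^ 2
      = α * (k * (β / α) - j) ^ 2 + D * (k : ℝ) ^ 2 / α := by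
    push_cast
    field_simp
    rw [hDdef]
    ring
  rw [e]
  have hk1 : (k : ℝ) ≤ s := by
    have : (k : ℝ) ≤ N := by exact_mod_cast hkN
    linarith
  have hk0' : (0 : ℝ) < k := by exact_mod_cast hk0
  have hspos : 0 < s := by linarith
  have h1 : |(k : ℝ) * (β / α) - j| ≤ 1 / s :=
    hjk.trans (one_div_le_one_div_of_le hspos hsN.le)
  have h2 : ((k : ℝ) * (β / α) - j) ^ 2 ≤ 1 / s ^ 2 := by
    have := sq_le_sq' (by linarith [neg_abs_le ((k : ℝ) * (β / α) - j)])
      ((le_abs_self ((k : ℝ) * (β / α) - j)).trans h1)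
    rwa [div_pow, one_pow] at this
  have h3 : α * ((k : ℝ) * (β / α) - j) ^ 2 ≤ √D := by
    have h4 : α * (1 / s ^ 2) = √D := by
      rw [hs2]; field_simp
    rw [← h4]
    exact mul_le_mul_of_nonneg_left h2 hα.le
  have h5 : D * (k : ℝ) ^ 2 / α ≤ √D := by
    have h6 : (k : ℝ) ^ 2 ≤ α / √D := by
      rw [← hs2]
      exact pow_le_pow_left₀ hk0'.le hk1 2
    rw [div_le_iff₀ hα]
    calc D * (k : ℝ) ^ 2 ≤ D * (α / √D) := mul_le_mul_of_nonneg_left h6 hD.le
      _ = √D * α := by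
        field_simp
        rw [pow_two, hsD2]
  linarith

end Pool.Agent.FC640.LS
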