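import Pool.Agent.FC640.LS.Exist
import Pool.Agent.FC640.LS.Flag

/-! # Short periodic geodesics of left-invariant metrics on `S³` and `S³ × S³` -/

set_option autoImplicit false
set_option maxHeartbeats 400000

open Real Set Matrix
open scoped ContDiff Quaternion

namespace Pool.Agent.FC640.LS

/-- The imaginary quaternion of a vector. -/
def quat (u : Fin 3 → ℝ) : ℍ[ℝ] := ⟨0, u 0, u 1, u 2⟩

lemma star_quat (u : Fin 3 → ℝ) : star (quat u) = -quat u := by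
  ext <;> simp [quat]

lemma norm_quat {u : Fin 3 → ℝ} (hu : u ⬝ᵥ u = 1) : ‖quat u‖ = 1 := by
  have h1 := Quaternion.normSq_eq_norm_mul_self (quat u)
  have h2 : Quaternion.normSq (quat u) = 1 := by
    rw [dot3_eq] at hu
    rw [Quaternion.normSq_def']
    simp only [quat]
    linarith
  rw [h2] at h1
  nlinarith [norm_nonneg (quat u)]

/-- The existence statement with a bound for the square of the period. -/
def Short {k : ℕ} (B : Matrix (Fin k × Fin 3) (Fin k × Fin 3) ℝ) (c : ℝ) : Prop :=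
  ∃ (γ : ℝ → A k) (T : ℝ), 0 < T ∧ IsGeodesic B γ ∧
    (∀ t, metric B (γ t) (deriv γ t) (deriv γ t) = 1) ∧ (∀ t, γ (t + T) = γ t) ∧
    T ^ 2 ≤ (2 * π) ^ 2 * c

theorem short_one {B : Matrix (Fin 1 × Fin 3) (Fin 1 × Fin 3) ℝ} (hB : B.PosDef) :
    ∃ c : ℝ, 0 < c ∧ c ^ 3 ≤ B.det ∧ Short B c := by
  obtain ⟨x, hx1, hx2, hx3⟩ := exists_unit_le hB
  have hcard : Fintype.card (Fin 1 × Fin 3) = 3 := by simp
  rw [hcard] at hx3
  refine ⟨x ⬝ᵥ (B *ᵥ x), hx2, hx3, ?_⟩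
  set X₀ : A 1 := fun j => quat (fun i => x (j, i)) with hX₀
  have hv : vec X₀ = x := by
    funext ⟨i, j⟩
    fin_cases j <;> rfl
  have hmem : X₀ ∈ cls (fun j : Fin 1 => |((1 : ℤ) : ℝ)|) := by
    refine ⟨funext fun j => star_quat _, fun j => ?_⟩
    have h1 : ‖X₀ j‖ = 1 := by
      refine norm_quat ?_
      rw [← hx1, dot3_eq]
      have hj : j = 0 := Subsingleton.elim _ _
      subst hj
      simp only [dotProduct, Fintype.sum_prod_type, Finset.univ_unique, Finset.sum_singleton,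
        Fin.sum_univ_three, Fin.default_eq_zero]
    rw [h1]; simp
  obtain ⟨γ, T, h1, h2, h3, h4, h5⟩ := exists_geodesic hB (m := fun _ => 1)
    (fun h => one_ne_zero (congrFun h 0)) hmem
  refine ⟨γ, T, h1, h2, h3, h4, ?_⟩
  have e : form B X₀ X₀ = x ⬝ᵥ (B *ᵥ x) := by unfold form; rw [hv]
  rwa [e] at h5

/-- One of the three products of eigenvalues is small. -/
lemma exists_small (p : Fin 3 → ℝ) (hp : ∀ i, 0 < p i) : ∃ i, p i ^ 3 ≤ p 0 * p 1 * p 2 := by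
  obtain ⟨i, -, hi⟩ := Finset.exists_min_image Finset.univ p Finset.univ_nonempty
  refine ⟨i, ?_⟩
  have h := Finset.prod_le_prod (s := Finset.univ) (f := fun _ => p i) (g := p)
    (fun j _ => (hp i).le) (fun j hj => hi j hj)
  simpa [Fin.prod_univ_three] using h

theorem short_two {B : Matrix J J ℝ} (hB : B.PosDef) :
    ∃ D : ℝ, 0 < D ∧ D ^ 3 ≤ B.det ∧ Short B (2 * √D) := by
  have hH := hB.isHermitian
  let τ : Fin 6 ≃ J := (finProdFinEquiv (m := 2) (n := 3)).symm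
  set g : Fin 6 → ℝ := fun l => hH.eigenvalues (τ l) with hg
  let σ : Fin 6 ≃ J := (Tuple.sort g).trans τ
  have hσ : Monotone (fun l => hH.eigenvalues (σ l)) := Tuple.monotone_sort g
  set μ : Fin 6 → ℝ := fun l => hH.eigenvalues (σ l) with hμ
  have hμpos : ∀ l, 0 < μ l := fun l => hB.eigenvalues_pos _
  have hdet : B.det = μ 0 * μ 1 * μ 2 * μ 3 * μ 4 * μ 5 := by
    rw [hH.det_eq_prod_eigenvalues]
    simp only [RCLike.ofReal_real_eq_id, id]
    rw [← Equiv.prod_comp σ, Fin.prod_univ_six]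
  obtain ⟨i, hi⟩ := exists_small
    (fun i : Fin 3 => μ ⟨i.val, by omega⟩ * μ ⟨5 - i.val, by omega⟩)
    (fun i => mul_pos (hμpos _) (hμpos _))
  have hi' : (μ ⟨i.val, by omega⟩ * μ ⟨5 - i.val, by omega⟩) ^ 3 ≤ B.det := by
    refine hi.trans (le_of_eq ?_)
    rw [hdet]
    show (μ 0 * μ 5) * (μ 1 * μ 4) * (μ 2 * μ 3) = _
    ring
  obtain ⟨u, v, hu, hv, hD⟩ := exists_units hB σ hσ i.val i.isLt
  set α := inj 0 u ⬝ᵥ (B *ᵥ inj 0 u) with hα
  set β := inj 0 u ⬝ᵥ (B *ᵥ inj 1 v) with hβ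
  set γ := inj 1 v ⬝ᵥ (B *ᵥ inj 1 v) with hγ
  have hβ' : inj 1 v ⬝ᵥ (B *ᵥ inj 0 u) = β := by
    have hT : Bᵀ = B := by
      have := hH.eq
      rwa [conjTranspose_eq_transpose_of_trivial] at this
    rw [hβ, dotProduct_mulVec, ← mulVec_transpose, hT, dotProduct_comm]
  have hcomb : ∀ p q : ℝ, (p • inj 0 u + q • inj 1 v) ⬝ᵥ (B *ᵥ (p • inj 0 u + q • inj 1 v))
      = α * p ^ 2 + 2 * β * p * q + γ * q ^ 2 := by
    intro p q
    simp only [mulVec_add, mulVec_smul, dotProduct_add, add_dotProduct, dotProduct_smul,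
      smul_dotProduct, smul_eq_mul]
    rw [← hα, ← hβ, ← hγ, hβ']
    ring
  have hpos : ∀ p q : ℝ, (p ≠ 0 ∨ q ≠ 0) → 0 < α * p ^ 2 + 2 * β * p * q + γ * q ^ 2 := by
    intro p q hpq
    rw [← hcomb]
    have h0 : p • inj 0 u + q • inj 1 v ≠ 0 := by
      intro h
      have h1 : (p • inj 0 u + q • inj 1 v) ⬝ᵥ (p • inj 0 u + q • inj 1 v) = p ^ 2 + q ^ 2 := by
        have e1 : inj 0 u ⬝ᵥ inj 0 u = 1 := by rw [inj_dot_inj, hu]
        have e2 : inj 1 v ⬝ᵥ inj 1 v = 1 := by rw [inj_dot_inj, hv]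
        have e3 : inj 0 u ⬝ᵥ inj 1 v = 0 := inj_dot_ne u v
        have e4 : inj 1 v ⬝ᵥ inj 0 u = 0 := by rw [dotProduct_comm, e3]
        simp only [dotProduct_add, add_dotProduct, dotProduct_smul, smul_dotProduct, smul_eq_mul]
        rw [e1, e2, e3, e4]
        ring
      rw [h] at h1
      simp at h1
      rcases hpq with h2 | h2
      · have := sq_pos_of_ne_zero h2
        have := sq_nonneg q
        linarith
      · have := sq_pos_of_ne_zero h2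
        have := sq_nonneg p
        linarith
    simpa using hB.dotProduct_mulVec_pos h0
  have hα0 : 0 < α := by
    have := hpos 1 0 (Or.inl one_ne_zero)
    simpa using this
  have hD0 : 0 < α * γ - β ^ 2 := by
    have h := hpos (-β) α (Or.inr hα0.ne')
    have e : α * (-β) ^ 2 + 2 * β * (-β) * α + γ * α ^ 2 = α * (α * γ - β ^ 2) := by ring
    rw [e] at h
    exact (mul_pos_iff_of_pos_left hα0).1 h
  obtain ⟨m, n, hmn, hle⟩ := exists_int_le hα0 hD0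
  refine ⟨α * γ - β ^ 2, hD0, (pow_le_pow_left₀ hD0.le hD 3).trans hi', ?_⟩
  set w : Fin 2 → (Fin 3 → ℝ) := ![u, v] with hw
  set N : Fin 2 → ℤ := ![m, n] with hN
  set X₀ : A 2 := fun j => (N j : ℝ) • quat (w j) with hX₀
  have hvec : vec X₀ = (m : ℝ) • inj 0 u + (n : ℝ) • inj 1 v := by
    funext ⟨s, j⟩
    fin_cases s <;> fin_cases j <;> simp [vec, hX₀, hN, hw, quat, inj]
  have hmem : X₀ ∈ cls (fun j : Fin 2 => |(N j : ℝ)|) := by
    refine ⟨funext fun j => ?_, fun j => ?_⟩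
    · show star ((N j : ℝ) • quat (w j)) = -((N j : ℝ) • quat (w j))
      have h : star ((N j : ℝ) • quat (w j)) = (N j : ℝ) • star (quat (w j)) := star_smul _ _
      rw [h, star_quat, smul_neg]
    · have h1 : ‖quat (w j)‖ = 1 := by
        refine norm_quat ?_
        fin_cases j
        · exact hu
        · exact hv
      show ‖(N j : ℝ) • quat (w j)‖ = |(N j : ℝ)|
      rw [norm_smul, h1, mul_one, Real.norm_eq_abs]
  have hN0 : N ≠ 0 := by
    intro h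
    rcases hmn with h1 | h1
    · exact h1 (congrFun h 0)
    · exact h1 (congrFun h 1)
  obtain ⟨c, T, h1, h2, h3, h4, h5⟩ := exists_geodesic hB hN0 hmem
  refine ⟨c, T, h1, h2, h3, h4, h5.trans ?_⟩
  refine mul_le_mul_of_nonneg_left ?_ (by positivity)
  unfold form
  rw [hvec, hcomb]
  exact hle

/-- `S³`: `T³ ≤ 4 π vol`. -/
theorem three_sphere {B : Matrix (Fin 1 × Fin 3) (Fin 1 × Fin 3) ℝ} (hB : B.PosDef) :
    ∃ (γ : ℝ → A 1) (T : ℝ), 0 < T ∧ IsGeodesic B γ ∧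
      (∀ t, metric B (γ t) (deriv γ t) (deriv γ t) = 1) ∧ (∀ t, γ (t + T) = γ t) ∧
      T ^ 3 ≤ 4 * π * vol B := by
  obtain ⟨c, hc0, hc, γ, T, h1, h2, h3, h4, h5⟩ := short_one hB
  refine ⟨γ, T, h1, h2, h3, h4, ?_⟩
  have hdet : 0 < B.det := hB.det_pos
  have h6 : (T ^ 2) ^ 3 ≤ ((2 * π) ^ 2 * c) ^ 3 := pow_le_pow_left₀ (by positivity) h5 3
  have h7 : ((2 * π) ^ 2 * c) ^ 3 ≤ (8 * π ^ 3 * √B.det) ^ 2 := by
    have e1 : (8 * π ^ 3 * √B.det) ^ 2 = 64 * π ^ 6 * B.det := by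
      rw [mul_pow, Real.sq_sqrt hdet.le]; ring
    have e2 : ((2 * π) ^ 2 * c) ^ 3 = 64 * π ^ 6 * c ^ 3 := by ring
    rw [e1, e2]
    exact mul_le_mul_of_nonneg_left hc (by positivity)
  have h8 : (T ^ 3) ^ 2 ≤ (8 * π ^ 3 * √B.det) ^ 2 := by
    calc (T ^ 3) ^ 2 = (T ^ 2) ^ 3 := by ring
      _ ≤ _ := h6.trans h7
  have h9 := le_of_sq_le_sq h8 (by positivity)
  calc T ^ 3 ≤ 8 * π ^ 3 * √B.det := h9
    _ = 4 * π * vol B := by unfold vol; ring

/-- `S³ × S³`: `T⁶ ≤ 128 π² vol`. -/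
theorem product {B : Matrix J J ℝ} (hB : B.PosDef) :
    ∃ (γ : ℝ → A 2) (T : ℝ), 0 < T ∧ IsGeodesic B γ ∧
      (∀ t, metric B (γ t) (deriv γ t) (deriv γ t) = 1) ∧ (∀ t, γ (t + T) = γ t) ∧
      T ^ 6 ≤ 128 * π ^ 2 * vol B := by
  obtain ⟨D, hD0, hD, γ, T, h1, h2, h3, h4, h5⟩ := short_two hB
  refine ⟨γ, T, h1, h2, h3, h4, ?_⟩
  have hs : √D ^ 3 ≤ √B.det := by
    refine Real.le_sqrt_of_sq_le ?_
    calc (√D ^ 3) ^ 2 = (√D ^ 2) ^ 3 := by ring
      _ = D ^ 3 := by rw [Real.sq_sqrt hD0.le]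
      _ ≤ _ := hD
  calc T ^ 6 = (T ^ 2) ^ 3 := by ring
    _ ≤ ((2 * π) ^ 2 * (2 * √D)) ^ 3 := pow_le_pow_left₀ (by positivity) h5 3
    _ = 512 * π ^ 6 * √D ^ 3 := by ring
    _ ≤ 512 * π ^ 6 * √B.det := mul_le_mul_of_nonneg_left hs (by positivity)
    _ = 128 * π ^ 2 * vol B := by unfold vol; ring

end Pool.Agent.FC640.LS
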